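import Mathlib
import Pool.Agent.Lib_MP_cde011_em.Density

/-!
# Mullin's question for almost all starting values

For a positive integer `m` let `P_0 = m`, `a_n` = the least prime factor of `P_n + 1` and
`P_(n+1) = P_n * a_n` (`emProd m n` and `emTerm m n` in Lean). For `m = 1` this is the
Euclid-Mullin sequence `2, 3, 7, 43, 13, ...`.

We prove: for almost all `m`, every prime `p ≤ f m` which does not divide `m` occurs in the sequence of
`m`, where `f` tends to infinity; and this holds relative to the set of all `m` whose first `k` terms are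
the true first `k` terms of the Euclid-Mullin sequence, for every `k`.
-/

set_option autoImplicit false

namespace Pool.Agent.Results.MP_cde011_nt.EuclidMullinAlmostAll

open Filter Topology Pool.Agent.EMSeed

theorem ncard_eq (S : ℕ → Prop) (N : ℕ) : Set.ncard {m : ℕ | 1 ≤ m ∧ m ≤ N ∧ S m} = cnt S N := by
  classical
  unfold cnt
  rw [← Set.ncard_coe_finset]
  congr 1
  ext m
  simp only [Set.mem_ofPred_eq, Finset.coe_filter, Finset.mem_Icc]
  tauto

/-- There is a function `f` tending to infinity such that, for every `k`, among the starting values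
`m` whose sequence begins with the first `k` terms of the Euclid-Mullin sequence, those for which
some prime `p ≤ f m` not dividing `m` is missing from the sequence of `m` have relative density
zero. (For `k = 0`: among all positive integers `m`.) -/
theorem result : ∃ f : ℕ → ℕ, Tendsto f atTop atTop ∧ ∀ k : ℕ,
    Tendsto (fun N : ℕ =>
      (Set.ncard {m : ℕ | 1 ≤ m ∧ m ≤ N ∧ (∀ i < k, emTerm m i = emTerm 1 i) ∧
        ∃ p : ℕ, p.Prime ∧ p ≤ f m ∧ ¬ p ∣ m ∧ ∀ n, emTerm m n ≠ p} : ℝ) /
      (Set.ncard {m : ℕ | 1 ≤ m ∧ m ≤ N ∧ ∀ i < k, emTerm m i = emTerm 1 i} : ℝ))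
      atTop (𝓝 0) := by
  obtain ⟨f, hf, h⟩ := main_density
  refine ⟨f, hf, fun k => ?_⟩
  have h1 := h k
  refine h1.congr fun N => ?_
  have e1 := ncard_eq (fun m => Prefix k m ∧ BadUpTo (f m) m) N
  have e2 := ncard_eq (Prefix k) N
  rw [← e1, ← e2]
  rfl

end Pool.Agent.Results.MP_cde011_nt.EuclidMullinAlmostAll
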