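import Mathlib
import Pool.Agent.Lib_MP_cde011_em.PrimeLim

/-!
# Mullin's question for almost all prime starting values

For a prime `l` let `emStart l` be the sequence `a(1) = l`, `a(n+1)` = the least prime factor of
`1 + a(1) ... a(n)`. For `l = 2` this is the Euclid-Mullin sequence. We prove that for almost all primes `l`
(natural density relative to the primes) every prime `p ≤ f l` occurs, where `f` tends to infinity.
-/

set_option autoImplicit false

namespace Pool.Agent.Results.MP_cde011_nt.EuclidMullinPrimeSeeds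

open Filter Topology Pool.Agent.EMSeed

/-- The Euclid-Mullin sequence starting with `l`: the term with index `0` is `l`, and the term with
index `n + 1` is the least prime factor of `1` plus the product `emProd l n` of the terms with index at
most `n`. -/
def emStart (l : ℕ) : ℕ → ℕ
  | 0 => l
  | n + 1 => emTerm l n

/-- the product of the terms with index at most `n` is `emProd l n` -/
theorem prod_emStart (l n : ℕ) : ∏ i ∈ Finset.range (n + 1), emStart l i = emProd l n := by
  induction n with
  | zero => simp [emStart, emProd]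
  | succ n ih =>
    rw [Finset.prod_range_succ, ih]
    rfl

/-- for `l = 2` we get the Euclid-Mullin sequence -/
theorem emStart_two (n : ℕ) : emStart 2 n = emTerm 1 n := by
  have h : ∀ n, emProd 1 (n + 1) = emProd 2 n := by
    intro n
    induction n with
    | zero =>
      show 1 * (1 + 1).minFac = 2
      rw [one_mul]
      exact Nat.prime_two.minFac_eq
    | succ n ih =>
      rw [emProd_succ, ih, emProd_succ 2 n]
      unfold emTerm
      rw [ih]
  cases n with
  | zero =>
    show 2 = (1 + 1).minFac
    exact Nat.prime_two.minFac_eq.symm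
  | succ n =>
    show (emProd 2 n + 1).minFac = (emProd 1 (n + 1) + 1).minFac
    rw [h]

/-- some prime up to `j` is missing from the sequence starting with the prime `l` -/
def BadUp (j l : ℕ) : Prop := l.Prime ∧ ∃ p : ℕ, p.Prime ∧ p ≤ j ∧ ∀ n, emStart l n ≠ p

theorem badUp_null (j : ℕ) :
    Tendsto (fun N : ℕ => (cnt (BadUp j) N : ℝ) / (cnt Nat.Prime N : ℝ)) atTop (𝓝 0) := by
  induction j with
  | zero =>
    have h : ∀ N, cnt (BadUp 0) N = 0 := by
      intro N
      classical
      unfold cnt
      rw [Finset.card_eq_zero, Finset.filter_eq_empty_iff]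
      rintro l _ ⟨_, p, hp, hp0, _⟩
      have := hp.pos
      omega
    simp [h]
  | succ j ih =>
    by_cases hj : (j + 1).Prime
    · have h := ih.add (null_badPrime hj)
      rw [add_zero] at h
      refine squeeze_zero (fun N => by positivity) (fun N => ?_) h
      rw [← add_div]
      apply div_le_div_of_nonneg_right _ (Nat.cast_nonneg _)
      have h1 : cnt (BadUp (j + 1)) N ≤ cnt (fun l => BadUp j l ∨ BadPrime (j + 1) l) N := by
        apply cnt_mono
        rintro l _ ⟨hl, p, hp, hpj, hn⟩
        rcases Nat.lt_or_eq_of_le hpj with h2 | h2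
        · exact Or.inl ⟨hl, p, hp, by omega, hn⟩
        · subst h2
          exact Or.inr ⟨hl, fun hc => hn 0 hc.symm, fun n => hn (n + 1)⟩
      have h2 := h1.trans (cnt_or_le (BadUp j) (BadPrime (j + 1)) N)
      exact_mod_cast h2
    · refine squeeze_zero (fun N => by positivity) (fun N => ?_) ih
      apply div_le_div_of_nonneg_right _ (Nat.cast_nonneg _)
      have h1 : cnt (BadUp (j + 1)) N ≤ cnt (BadUp j) N := by
        apply cnt_mono
        rintro l _ ⟨hl, p, hp, hpj, hn⟩
        rcases Nat.lt_or_eq_of_le hpj with h2 | h2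
        · exact ⟨hl, p, hp, by omega, hn⟩
        · subst h2
          exact absurd hp hj
      exact_mod_cast h1

theorem ncard_eq (S : ℕ → Prop) (hS : ∀ l, S l → 0 < l) (N : ℕ) :
    Set.ncard {l : ℕ | l ≤ N ∧ S l} = cnt S N := by
  classical
  unfold cnt
  rw [← Set.ncard_coe_finset]
  congr 1
  ext l
  simp only [Set.mem_ofPred_eq, Finset.coe_filter, Finset.mem_Icc]
  constructor
  · rintro ⟨h1, h2⟩
    exact ⟨⟨hS l h2, h1⟩, h2⟩
  · rintro ⟨⟨_, h1⟩, h2⟩
    exact ⟨h1, h2⟩

/-- There is a function `f` tending to infinity such that for almost all primes `l` (in the sense of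
natural density relative to the set of all primes) every prime `p ≤ f l` is a term of the
Euclid-Mullin sequence starting with `l`. -/
theorem result : ∃ f : ℕ → ℕ, Tendsto f atTop atTop ∧
    Tendsto (fun N : ℕ =>
      (Set.ncard {l : ℕ | l ≤ N ∧ l.Prime ∧ ∃ p : ℕ, p.Prime ∧ p ≤ f l ∧ ∀ n, emStart l n ≠ p} : ℝ) /
      (Set.ncard {l : ℕ | l ≤ N ∧ l.Prime} : ℝ)) atTop (𝓝 0) := by
  obtain ⟨f, hf, h⟩ := exists_diagonal_rel (B := BadUp)
    (fun i j l hij h => ⟨h.1, by
      obtain ⟨p, hp, hpi, hn⟩ := h.2
      exact ⟨p, hp, hpi.trans hij, hn⟩⟩)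
    (fun N => (cnt Nat.Prime N : ℝ)) (fun N => Nat.cast_nonneg _) badUp_null
  refine ⟨f, hf, h.congr fun N => ?_⟩
  have e1 := ncard_eq (fun l => BadUp (f l) l) (fun l hl => hl.1.pos) N
  have e2 := ncard_eq Nat.Prime (fun l hl => hl.pos) N
  rw [← e1, ← e2]
  rfl

end Pool.Agent.Results.MP_cde011_nt.EuclidMullinPrimeSeeds
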